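import Pool.Agent.X325.CyclicBlock

/-!
# Transitive Sylow subgroups without transitive subgroups with the cyclic-block property

For every prime `p` there are a set `Ω`, which may be taken finite or countably infinite, and a
transitive subgroup `G` of `FSym(Ω)` with a transitive Sylow `p`-subgroup `S` such that no
transitive subgroup `H` of `S` has the cyclic-block property: every transitive subgroup `H` of `S`
contains an element `h` with a cycle whose support is not a block for `H`.

The example. Let `M` be the group of the upper unitriangular matrices of size four over the field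
with `p` elements and `A` the subgroup generated by `1 + E_13`. Then `M` acts on the `p ^ 5` cosets of
`A`, and every transitive subgroup `N` of `M` is equal to `M`: it contains elements `n₁`, `n₂` which
are equal to `1 + E_12` and `1 + E_23` up to elements of `A`, and their commutator is `1 + E_13`. The
cycle of `1 + E_34` through the coset `A` is not a block, since `1 + E_13` fixes `A` but does not
commute with `1 + E_34`. (In general, for a transitive `p`-group with a point stabiliser `A` the
cyclic-block property means that `A` is a permutable subgroup, and every transitive subgroup is the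
whole group if `A` is contained in the Frattini subgroup.) This is the finite example.

For infinite `Ω` let `T` be any transitive `p`-subgroup of `FSym(Γ)` on an infinite set `Γ`, and
`S` the group of the finitary permutations of `M/A × Γ` which act as an element of `T` on `Γ`
and by elements of `M` on the blocks `M/A × {x}`. If `H` is a transitive subgroup of `S` then the
stabiliser in `H` of a block acts on it as a transitive subgroup of `M`, so as the whole of `M`. If
the supports of the cycles of the elements of `H` were blocks for `H` then the same would hold for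
the group `M` on `M/A`. Here `T` is the group of the finitary permutations of the set of the finite
sequences of digits which are triangular: the change of a digit depends only on the larger digits.
-/

set_option autoImplicit false

open Equiv Pool.Agent.X325.CB

namespace Pool.Agent.Results.MP_f6f917_al.NoCyclicBlocks

/-- On the set `Ω` there are a transitive group `G` of finitary permutations and a transitive Sylow
`p`-subgroup `S` of `G`, which is totally imprimitive, such that no transitive subgroup `H` of `S` has
the cyclic-block property; moreover each of these `H` contains an element with a cycle whose support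
is not a block for `H`. -/
def Counterexample (p : ℕ) (Ω : Type) : Prop :=
  ∃ G S : Subgroup (Perm Ω), G ≤ FSym Ω ∧ Transitive G ∧ IsSylow p G S ∧ Transitive S ∧
    TotallyImprimitive S ∧
    (∀ H : Subgroup (Perm Ω), H ≤ S → Transitive H → ¬ CyclicBlock p H) ∧
    ∀ H : Subgroup (Perm Ω), H ≤ S → Transitive H → ∃ h ∈ H, ∃ x, ¬ IsBlock H (cycleOf h x)

theorem counterexample {p : ℕ} (hp : p.Prime) {Γ : Type} {T : Subgroup (Perm Γ)}
    (hT : T ≤ FSym Γ) (hT' : TotallyImprimitive T) (hTp : IsPGroup p T) :
    Counterexample p (Pt (ZMod p) × Γ) := by
  have : NeZero p := ⟨hp.ne_zero⟩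
  have : Nonempty (Pt (ZMod p)) := ⟨Pt.o⟩
  have hM : ∀ m : UT (ZMod p), m ^ p ^ 6 = 1 := fun m => by
    rw [← UT.card p]
    exact pow_card_eq_one'
  have h1 : IsPGroup p (wr (UT (ZMod p)) (Pt (ZMod p)) T) := wr_pGroup hM hTp
  have h2 : TotallyImprimitive (wr (UT (ZMod p)) (Pt (ZMod p)) T) :=
    wr_imprimitive Pt.exists_smul hT hT'
  have h3 : ∀ H : Subgroup (Perm (Pt (ZMod p) × Γ)), H ≤ wr (UT (ZMod p)) (Pt (ZMod p)) T →
      Transitive H → ∃ h ∈ H, ∃ x, ¬ IsBlock H (cycleOf h x) :=
    fun H hH hHt => wr_main hp.ne_one hH hHt
  refine ⟨wr (UT (ZMod p)) (Pt (ZMod p)) T, wr (UT (ZMod p)) (Pt (ZMod p)) T, wr_le T, h2.1,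
    ⟨le_rfl, h1, fun T' h _ h' => le_antisymm h h'⟩, h2.1, h2, fun H hH hHt hc => ?_, h3⟩
  obtain ⟨h, hh, x, hx⟩ := h3 H hH hHt
  exact hx (hc.2.2.2 h hh x)

/-- **The question has a negative answer**, for every prime `p`, on a finite set and on a countably
infinite set. -/
theorem result : ∀ p : ℕ, p.Prime →
    (∃ Ω : Type, Finite Ω ∧ Counterexample p Ω) ∧
    ∃ Ω : Type, Countable Ω ∧ Infinite Ω ∧ Counterexample p Ω := by
  intro p hp
  have : NeZero p := ⟨hp.ne_zero⟩
  have : Fact (1 < p) := ⟨hp.one_lt⟩
  have : Nonempty (Pt (ZMod p)) := ⟨Pt.o⟩
  constructor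
  · refine ⟨Pt (ZMod p) × Unit, inferInstance,
      counterexample hp (Γ := Unit) (T := ⊥) bot_le ⟨⟨⟨()⟩, fun x y => ⟨1, Subgroup.one_mem _, rfl⟩⟩,
        fun F _ => ⟨Set.univ, Set.subset_univ _, Set.finite_univ, ⟨(), Set.mem_univ _⟩,
          fun h _ => Or.inl (Set.image_univ_of_surjective h.surjective)⟩⟩ IsPGroup.of_bot⟩
  · have : Nontrivial (ZMod p) := ZMod.nontrivial p
    have : Countable (Pt (ZMod p)) := Finite.to_countable
    refine ⟨Pt (ZMod p) × (ℕ →₀ ZMod p), inferInstance, inferInstance,
      counterexample hp triGroup_le triGroup_imprimitive triGroup_pGroup⟩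

end Pool.Agent.Results.MP_f6f917_al.NoCyclicBlocks
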